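import Mathlib
import Pool.Agent.Q102.Trade3Main

/-!
MP_5465ec_co, Q1 (proved): a complete simple game with three voter types and two shift-minimal
winning vectors that is 3-trade robust is weighted.
-/

namespace Pool.Agent.Results.MP_5465ec_co.TwoRows

open Finset Pool.Agent.Q102.Trade

/-- **Q1 of MP_5465ec_co (proved).** -/
theorem result {N : Type*} [Fintype N] [DecidableEq N] (W : Finset N → Prop)
    (hW : IsSimple W) (_hc : Complete W) (ht : numTypes W = 3) (_hr : numShiftMin W = 2)
    (h3 : TradeRobust 3 W) : Weighted W :=
  weighted_of_three hW ht h3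

end Pool.Agent.Results.MP_5465ec_co.TwoRows
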